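import Mathlib
import Pool.Agent.Q277.Ram11k3
import Pool.Agent.Q277.Ram11k3Fac
import Pool.Agent.Q277.RamTwo

/-!
# Integrality of the normalised `(11k+3)` sums with ratio `64`
-/

namespace Pool.Agent.Results.MP_550cbf_nt.Integrality

open Finset Q277.Ram11k3 Q277.FacTools Q277.RamTwo Q266.PInt

/-- the rational number `a_n` of the problem -/
def a (n : ℕ) : ℚ :=
  1 / ((n : ℚ) * (2 * n + 1) * ((2 * n).choose n : ℚ)) *
    ∑ k ∈ range n, (11 * (k : ℚ) + 3) * ((2 * k).choose k : ℚ) ^ 2 * ((3 * k).choose k : ℚ) *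
      64 ^ (n - 1 - k)

theorem F_zero (j : ℕ) : F j 0
    = (11 * (j : ℚ) + 3) * ((2 * j).choose j : ℚ) ^ 2 * ((3 * j).choose j : ℚ) := by
  unfold F
  rw [if_pos (by omega), choose_two, choose_three]
  simp only [Nat.sub_zero, pow_zero, Nat.cast_zero, mul_zero]
  rw [f1 (2 * j)]
  have a1 := fne (3 * j)
  have a2 := fne (2 * j)
  have a3 := fne j
  generalize ((3 * j).factorial : ℚ) = x1 at *
  generalize ((2 * j).factorial : ℚ) = x2 at *
  generalize (j.factorial : ℚ) = x3 at *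
  push_cast
  simp only [Nat.factorial_zero, Nat.cast_one]
  have b1 : 2 * (j : ℚ) + 1 ≠ 0 := by positivity
  field_simp
  ring

theorem sum_F (n : ℕ) : ∑ k ∈ range n, (11 * (k : ℚ) + 3) *
      ((2 * k).choose k : ℚ) ^ 2 * ((3 * k).choose k : ℚ) * 64 ^ (n - 1 - k)
      = ∑ k ∈ range n, G n k := by
  rw [wz_sum F G 64 (fun n k hk => pair n k hk) corner n]
  refine sum_congr rfl fun j _ => ?_
  rw [F_zero]; ring

theorem term_int (n k : ℕ) (hn : 2 ≤ n) :
    ∃ z : ℤ, 2 * (1 / ((n : ℚ) * (2 * n + 1) * ((2 * n).choose n : ℚ)) * G n k) = z := by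
  rcases Nat.lt_or_ge n (3 * k + 1) with h | h
  · refine ⟨0, ?_⟩
    unfold G
    rw [if_neg (by omega)]
    simp
  obtain ⟨r, hr⟩ : ∃ r, n = 3 * k + 1 + r := ⟨n - 3 * k - 1, by omega⟩
  obtain ⟨B, hB⟩ := exists_RB r k
  obtain ⟨C, hC⟩ := exists_RC r k
  have eB : ((((2 * k).factorial : ℚ) * ((r + 2 * k).factorial : ℚ) * (r.factorial : ℚ) *
      ((2 * r + 4 * k + 1).factorial : ℚ) * ((r + k).factorial : ℚ)) * (B : ℚ)
      = (k.factorial : ℚ) * ((3 * r + 6 * k).factorial : ℚ) * ((2 * r + 2 * k).factorial : ℚ)) := by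
    exact_mod_cast hB
  have eC : ((((2 * k + 1).factorial : ℚ) * ((r + 2 * k).factorial : ℚ) * (r.factorial : ℚ) *
      ((2 * r + 4 * k).factorial : ℚ) * ((r + k).factorial : ℚ)) * (C : ℚ)
      = (k.factorial : ℚ) * ((3 * r + 6 * k).factorial : ℚ) * ((2 * r + 2 * k).factorial : ℚ)) := by
    exact_mod_cast hC
  have hnn : (n : ℚ) ≠ 0 := by exact_mod_cast (by omega : n ≠ 0)
  have b1 : 2 * (n : ℚ) + 1 ≠ 0 := by positivity
  have hred : 2 * (1 / ((n : ℚ) * (2 * n + 1) * ((2 * n).choose n : ℚ)) * G n k)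
      = (-64) ^ k * (8 * r ^ 2 + 22 * k * r + 12 * k ^ 2 - r - 4 * k - 1) *
      ((k.factorial : ℚ) * ((3 * r + 6 * k).factorial : ℚ) * ((2 * r + 2 * k).factorial : ℚ)) /
      ((2 * k + 2 * r - 1) * ((2 * k + 1).factorial : ℚ) * ((r + 2 * k).factorial : ℚ) *
      (r.factorial : ℚ) * ((2 * r + 4 * k + 1).factorial : ℚ) * ((r + k).factorial : ℚ)) := by
    rw [G_r n r k hr, choose_two, show 6 * k + 3 * r = 3 * r + 6 * k by ring,
      show 2 * k + 2 * r = 2 * r + 2 * k by ring, show 2 * k + r = r + 2 * k by ring,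
      show 4 * k + 2 * r + 1 = 2 * r + 4 * k + 1 by ring, show k + r = r + k by ring]
    have a1 := fne (2 * n)
    have a2 := fne n
    have a3 := fne (2 * k + 1)
    have a4 := fne (r + 2 * k)
    have a5 := fne r
    have a6 := fne (2 * r + 4 * k + 1)
    have a7 := fne (r + k)
    have a8 := odd_ne r k
    field_simp
  rw [hred]
  clear hred hB hC
  rw [f1 (2 * k), f1 (2 * r + 4 * k)]
  rw [f1 (2 * r + 4 * k)] at eB
  rw [f1 (2 * k)] at eC
  have b0 := odd_ne r k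
  have c1 := fne (2 * k)
  have c2 := fne (r + 2 * k)
  have c4 := fne (2 * r + 4 * k)
  have c5 := fne (r + k)
  have c6 := fne r
  have d1 : 2 * (k : ℚ) + 1 ≠ 0 := by positivity
  have d2 : 2 * (r : ℚ) + 4 * k + 1 ≠ 0 := by positivity
  match r with
  | 0 =>
    refine ⟨(-64) ^ k * (-B + 2 * C), ?_⟩
    simp only [zero_add, mul_zero, Nat.cast_zero, add_zero] at *
    generalize ((2 * k).factorial : ℚ) = x1 at *
    generalize ((6 * k).factorial : ℚ) = x2 at *
    generalize ((4 * k).factorial : ℚ) = x3 at *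
    generalize (k.factorial : ℚ) = x4 at *
    simp only [Nat.factorial_zero, Nat.cast_one] at *
    push_cast at *
    have hB1 : (B : ℚ) = x4 * x2 * x1 / (x1 * x1 * 1 * ((4 * k + 1) * x3) * x4) := by
      rw [eq_div_iff (by positivity)]; linear_combination eB
    have hC1 : (C : ℚ) = x4 * x2 * x1 / ((2 * k + 1) * x1 * x1 * 1 * x3 * x4) := by
      rw [eq_div_iff (by positivity)]; linear_combination eC
    rw [hB1, hC1]
    obtain ⟨u, hu⟩ : ∃ u : ℚ, u = 2 * k - 1 := ⟨_, rfl⟩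
    rw [← hu] at b0 ⊢
    field_simp
    rw [hu]
    ring
  | s + 1 =>
    obtain ⟨A, hA⟩ := exists_RA s k
    have eA : ((((2 * k).factorial : ℚ) * ((s + 2 * k + 1).factorial : ℚ) * (s.factorial : ℚ) *
      ((2 * s + 4 * k + 3).factorial : ℚ) * ((s + k).factorial : ℚ)) * (A : ℚ)
      = (k.factorial : ℚ) * ((3 * s + 6 * k + 3).factorial : ℚ) * ((2 * s + 2 * k).factorial : ℚ)) := by
      exact_mod_cast hA
    refine ⟨(-64) ^ k * (2 * A - B + 2 * C), ?_⟩
    rw [show 3 * (s + 1) + 6 * k = 3 * s + 6 * k + 3 by ring,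
      show 2 * (s + 1) + 2 * k = 2 * s + 2 * k + 2 by ring,
      show 2 * (s + 1) + 4 * k = 2 * s + 4 * k + 2 by ring,
      show s + 1 + 2 * k = s + 2 * k + 1 by ring, show s + 1 + k = s + k + 1 by ring] at *
    rw [f1 (2 * s + 4 * k + 2)] at eA
    rw [f2 (2 * s + 2 * k), f1 (s + k), f1 s] at *
    have c7 := fne (s + k)
    have c8 := fne s
    generalize ((2 * k).factorial : ℚ) = x1 at *
    generalize ((3 * s + 6 * k + 3).factorial : ℚ) = x2 at *
    generalize ((2 * s + 4 * k + 2).factorial : ℚ) = x3 at *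
    generalize (k.factorial : ℚ) = x4 at *
    generalize ((s + 2 * k + 1).factorial : ℚ) = x5 at *
    generalize ((s + k).factorial : ℚ) = x6 at *
    generalize (s.factorial : ℚ) = x7 at *
    generalize ((2 * s + 2 * k).factorial : ℚ) = x8 at *
    push_cast at *
    have e1 : 2 * (s : ℚ) + 4 * k + 3 ≠ 0 := by positivity
    have e2 : 2 * (s : ℚ) + 2 * k + 2 ≠ 0 := by positivity
    have e3 : 2 * (s : ℚ) + 2 * k + 1 ≠ 0 := by positivity
    have e4 : (s : ℚ) + k + 1 ≠ 0 := by positivity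
    have e5 : (s : ℚ) + 1 ≠ 0 := by positivity
    have e6 : 2 * (s : ℚ) + 4 * k + 2 + 1 ≠ 0 := by positivity
    have hA1 : (A : ℚ) = x4 * x2 * x8 / (x1 * x5 * x7 * ((2 * s + 4 * k + 2 + 1) * x3) * x6) := by
      rw [eq_div_iff (by positivity)]; linear_combination eA
    have hB1 : (B : ℚ) = x4 * x2 * ((2 * s + 2 * k + 2) * (2 * s + 2 * k + 1) * x8) /
        (x1 * x5 * ((s + 1) * x7) * ((2 * s + 4 * k + 2 + 1) * x3) * ((s + k + 1) * x6)) := by
      rw [eq_div_iff (by positivity)]; linear_combination eB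
    have hC1 : (C : ℚ) = x4 * x2 * ((2 * s + 2 * k + 2) * (2 * s + 2 * k + 1) * x8) /
        ((2 * k + 1) * x1 * x5 * ((s + 1) * x7) * x3 * ((s + k + 1) * x6)) := by
      rw [eq_div_iff (by positivity)]; linear_combination eC
    rw [hA1, hB1, hC1]
    have hu : 2 * (k : ℚ) + 2 * (s + 1) - 1 = 2 * s + 2 * k + 1 := by ring
    rw [hu]
    field_simp
    ring

theorem a_two (m : ℕ) (hm : 1 ≤ m) : PI 2 (a (m + 1)) := by
  have hp := Nat.prime_two
  obtain ⟨u, hu⟩ := even_c m hm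
  have h := sum_PI 2 (by norm_num) 16 (fun k => (11 * k + 3) * (2 * k).choose k *
    (3 * k).choose k) m ⟨(11 * m + 3) * u * (3 * m).choose m, by
      show (11 * m + 3) * (2 * m).choose m * (3 * m).choose m = _
      rw [hu]; ring⟩
  have e : a (m + 1) = ((∑ k ∈ range (m + 1), ((2 * (2 : ℕ) * 16 : ℤ) : ℚ) ^ (m - k) *
      (((2 * k).choose k : ℚ) * (((11 * k + 3) * (2 * k).choose k * (3 * k).choose k : ℕ) : ℚ))) /
      ((2 : ℕ) * ((2 * m).choose m : ℚ))) * (1 / (2 * (m : ℚ) + 1)) *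
        (1 / (2 * ((m + 1 : ℕ) : ℚ) + 1)) := by
    have hs : (∑ k ∈ range (m + 1), ((2 * (2 : ℕ) * 16 : ℤ) : ℚ) ^ (m - k) *
        (((2 * k).choose k : ℚ) * (((11 * k + 3) * (2 * k).choose k * (3 * k).choose k : ℕ) : ℚ)))
        = ∑ k ∈ range (m + 1), (11 * (k : ℚ) + 3) *
          ((2 * k).choose k : ℚ) ^ 2 * ((3 * k).choose k : ℚ) * 64 ^ (m + 1 - 1 - k) := by
      refine sum_congr rfl fun k _ => ?_
      rw [show m + 1 - 1 - k = m - k by omega]
      push_cast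
      ring
    rw [hs]
    unfold a
    generalize (∑ k ∈ range (m + 1), (11 * (k : ℚ) + 3) *
      ((2 * k).choose k : ℚ) ^ 2 * ((3 * k).choose k : ℚ) * 64 ^ (m + 1 - 1 - k)) = x
    have h2 := cstep m
    have c1 := cne m
    have c2 := cne (m + 1)
    generalize ((2 * (m + 1)).choose (m + 1) : ℚ) = y at *
    generalize ((2 * m).choose m : ℚ) = z at *
    push_cast
    have b1 : (m : ℚ) + 1 ≠ 0 := by positivity
    have b2 : 2 * (m : ℚ) + 1 ≠ 0 := by positivity
    have b3 : 2 * ((m : ℚ) + 1) + 1 ≠ 0 := by positivity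
    have hy : y = 2 * (2 * m + 1) * z / (m + 1) := by
      rw [eq_div_iff b1]; linear_combination h2
    rw [hy]
    field_simp
  rw [e]
  exact (h.mul hp (odd_inv m)).mul hp (odd_inv (m + 1))

theorem result (n : ℕ) (hn : 2 ≤ n) : ∃ z : ℤ, a n = z := by
  obtain ⟨m, rfl⟩ : ∃ m, n = m + 1 := ⟨n - 1, by omega⟩
  obtain ⟨B, hB, w, hw⟩ := a_two m (by omega)
  have h1 : ∃ z : ℤ, 2 * a (m + 1) = z := by
    have h := fun k => term_int (m + 1) k hn
    choose c hc using h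
    refine ⟨∑ k ∈ range (m + 1), c k, ?_⟩
    unfold a
    rw [sum_F, mul_sum, mul_sum, Int.cast_sum]
    exact sum_congr rfl fun k _ => hc k
  obtain ⟨z, hz⟩ := h1
  have h2 : (B : ℤ) * z = 2 * w := by
    have : (B : ℚ) * z = 2 * w := by rw [← hz, ← hw]; ring
    exact_mod_cast this
  have h4 : (2 : ℤ) ∣ (B : ℤ) * z := ⟨w, h2⟩
  rcases Int.prime_two.dvd_mul.1 h4 with h5 | h5
  · exact absurd (by exact_mod_cast h5) hB
  · obtain ⟨y, hy⟩ := h5
    refine ⟨y, ?_⟩
    rw [hy] at hz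
    push_cast at hz
    linarith

end Pool.Agent.Results.MP_550cbf_nt.Integrality
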